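import Pool.Agent.Y206.Q.Gen

set_option autoImplicit false
open MvPolynomial
open Pool.Agent.Helper947.Geo
open Pool.Agent.Y206.G

namespace Pool.Agent.Q83.Cone

/-- forms of degree `p + q` are combinations of products -/
theorem hom_ind {N : ℕ} (p q : ℕ) : ∀ (T : MvPolynomial (Fin N) ℂ →ₗ[ℂ] ℂ),
    (∀ f g : MvPolynomial (Fin N) ℂ, f.IsHomogeneous p → g.IsHomogeneous q → T (f * g) = 0) →
    ∀ f : MvPolynomial (Fin N) ℂ, f.IsHomogeneous (p + q) → T f = 0 := by
  induction q with
  | zero =>
    intro T hT f hf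
    have := hT f 1 hf (isHomogeneous_one _ _)
    rwa [mul_one] at this
  | succ q ih =>
    intro T hT f hf
    rw [f.as_sum, map_sum]
    apply Finset.sum_eq_zero
    intro μ hμ
    have hdeg : μ.degree = p + (q + 1) := by
      have := hf (mem_support_iff.mp hμ)
      rw [← this, Finsupp.degree_eq_weight_one]
      rfl
    have hne : μ ≠ 0 := by
      rintro rfl
      simp at hdeg
    obtain ⟨i, hi⟩ := Finsupp.ne_iff.mp hne
    have hi' : μ i ≠ 0 := by simpa using hi
    obtain ⟨ν, hν⟩ : ∃ ν : Fin N →₀ ℕ, μ = ν + Finsupp.single i 1 := by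
      refine ⟨μ - Finsupp.single i 1, ?_⟩
      rw [tsub_add_cancel_of_le]
      rw [Finsupp.single_le_iff]
      omega
    have hmon : monomial μ (coeff μ f) = monomial ν (coeff μ f) * X i := by
      rw [X, monomial_mul, mul_one, ← hν]
    rw [hmon]
    have hνdeg : ν.degree = p + q := by
      have := congrArg Finsupp.degree hν
      rw [map_add, hdeg, Finsupp.degree_single] at this
      omega
    have := ih (T.comp (LinearMap.mulRight ℂ (X i))) (by
      intro f' g' hf' hg'
      show T (f' * g' * X i) = 0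
      rw [mul_assoc]
      exact hT f' _ hf' (hg'.mul (isHomogeneous_X ℂ i))) (monomial ν (coeff μ f))
      (isHomogeneous_monomial _ hνdeg)
    exact this

/-- pull back of a polynomial by the projection -/
noncomputable def pb {N : ℕ} (P : Fin (N + 1) → ℂ) :
    MvPolynomial (Fin N) ℂ →ₐ[ℂ] MvPolynomial (Fin (N + 1)) ℂ :=
  aeval fun i => C (P (Fin.last N)) * X i.castSucc - C (P i.castSucc) * X (Fin.last N)

theorem eval_pb {N : ℕ} (P x : Fin (N + 1) → ℂ) (f : MvPolynomial (Fin N) ℂ) :
    eval x (pb P f) = eval (projv P x) f := by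
  have h : (eval x).comp (pb P : MvPolynomial (Fin N) ℂ →+* MvPolynomial (Fin (N + 1)) ℂ) =
      eval (projv P x) := by
    apply MvPolynomial.ringHom_ext
    · intro r
      simp [pb]
    · intro i
      simp [pb, projv]
      ring
  exact congrArg (fun g : MvPolynomial (Fin N) ℂ →+* ℂ => g f) h

theorem lin_hom {N : ℕ} (P : Fin (N + 1) → ℂ) (i : Fin N) :
    (C (P (Fin.last N)) * X i.castSucc - C (P i.castSucc) * X (Fin.last N) :
      MvPolynomial (Fin (N + 1)) ℂ).IsHomogeneous 1 := by
  have h1 := (isHomogeneous_C (Fin (N + 1)) (P (Fin.last N))).mul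
    (isHomogeneous_X ℂ i.castSucc)
  have h2 := (isHomogeneous_C (Fin (N + 1)) (P i.castSucc)).mul
    (isHomogeneous_X ℂ (Fin.last N))
  rw [zero_add] at h1 h2
  exact h1.sub h2

theorem pb_hom {N : ℕ} (P : Fin (N + 1) → ℂ) {f : MvPolynomial (Fin N) ℂ} {d : ℕ}
    (hf : f.IsHomogeneous d) : (pb P f).IsHomogeneous d := by
  have h := hf.aeval (fun i => C (P (Fin.last N)) * X i.castSucc -
    C (P i.castSucc) * X (Fin.last N)) (lin_hom P)
  rwa [one_mul] at h

theorem evRel_mono {N : ℕ} {K : Type} [Fintype K] (z : K → Fin (N + 1) → ℂ)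
    (P : Fin (N + 1) → ℂ) (d : ℕ) : evRel z d ≤ evRel (fun k => projv P (z k)) d := by
  intro c hc f hf
  have := hc (pb P f) (pb_hom P hf)
  simpa only [eval_pb] using this

/-- **the Hilbert function of a geproci set is larger than that of its projection** -/
theorem core {N : ℕ} {K : Type} [Fintype K] (z : K → Fin (N + 1) → ℂ) (P : Fin (N + 1) → ℂ)
    (hP : P (Fin.last N) ≠ 0)
    (hsp : ∀ c : Fin (N + 1) → ℂ, (∀ k, ∑ i, c i * z k i = 0) → c = 0)
    (hwsp : Submodule.span ℂ (Set.range fun k => projv P (z k)) = ⊤)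
    {m : ℕ} {I : Ideal (MvPolynomial (Fin N) ℂ)} {h : MvPolynomial (Fin N) ℂ}
    (g : GorSet (fun k => projv P (z k)) (m + 2) I h) (hK : 2 ≤ Fintype.card K)
    (d : ℕ) (hd1 : 1 ≤ d) (hd2 : d ≤ m + 1) :
    Module.finrank ℂ (evRel z d) < Module.finrank ℂ (evRel (fun k => projv P (z k)) d) := by
  classical
  set w : K → Fin N → ℂ := fun k => projv P (z k) with hw
  apply Submodule.finrank_lt_finrank_of_lt
  rw [lt_iff_le_and_ne]
  refine ⟨evRel_mono z P d, ?_⟩
  intro heq
  obtain ⟨⟨c, hc⟩, hc0, hcs⟩ := finrank_eq_one_iff'.mp g.rel_top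
  have hc0' : c ≠ 0 := fun h0 => hc0 (Subtype.ext h0)
  have hfull := g.full hK c hc hc0'
  have hc' : ∀ f : MvPolynomial (Fin N) ℂ, f.IsHomogeneous (m + 1) →
      ∑ k, c k * eval (w k) f = 0 := hc
  -- the element
  have he : (fun k => c k * z k (Fin.last N)) ∈ evRel w m := by
    intro f hf
    obtain ⟨p, rfl⟩ : ∃ p, d = p + 1 := ⟨d - 1, by omega⟩
    obtain ⟨q, rfl⟩ : ∃ q, m = p + q := ⟨m - p, by omega⟩
    let T : MvPolynomial (Fin N) ℂ →ₗ[ℂ] ℂ :=
      ∑ k, (c k * z k (Fin.last N)) • (aeval (w k) : MvPolynomial (Fin N) ℂ →ₐ[ℂ] ℂ).toLinearMap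
    have hT : ∀ f, T f = ∑ k, (c k * z k (Fin.last N)) * eval (w k) f := by
      intro f
      simp only [T, LinearMap.sum_apply, LinearMap.smul_apply, AlgHom.toLinearMap_apply,
        smul_eq_mul]
      rfl
    have := hom_ind p q T (by
      intro f1 f2 hf1 hf2
      rw [hT]
      have h1 : (fun k => c k * eval (w k) f2) ∈ evRel w (p + 1) := by
        intro f3 hf3
        have h2 := hc' (f3 * f2) (by
          have := hf3.mul hf2
          rwa [add_right_comm] at this)
        rw [← h2]
        refine Finset.sum_congr rfl fun k _ => ?_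
        rw [map_mul]
        ring
      rw [← heq] at h1
      have h3 := h1 (X (Fin.last N) * pb P f1) (by
        have := (isHomogeneous_X ℂ (Fin.last N)).mul (pb_hom P hf1)
        rwa [add_comm 1 p] at this)
      rw [← h3]
      refine Finset.sum_congr rfl fun k _ => ?_
      rw [map_mul, map_mul, eval_X, eval_pb]
      ring) f hf
    rw [hT] at this
    exact this
  -- the space `evRel w m` is spanned by the `c_k w_k(i)`
  have hli : LinearIndependent ℂ (fun (i : Fin N) (k : K) => c k * w k i) := by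
    rw [Fintype.linearIndependent_iff]
    intro a ha
    have h1 : ∀ k, ∑ i, a i * w k i = 0 := by
      intro k
      have h2 := congrFun ha k
      simp only [Finset.sum_apply, Pi.smul_apply, smul_eq_mul, Pi.zero_apply] at h2
      have h3 : c k * ∑ i, a i * w k i = 0 := by
        rw [← h2, Finset.mul_sum]
        refine Finset.sum_congr rfl fun i _ => by ring
      exact (mul_eq_zero.mp h3).resolve_left (hfull k)
    let L : (Fin N → ℂ) →ₗ[ℂ] ℂ := ∑ i, a i • LinearMap.proj i
    have hL : ∀ x, L x = ∑ i, a i * x i := by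
      intro x
      simp [L, LinearMap.sum_apply]
    have hL0 : L = 0 := by
      apply LinearMap.ext_on_range hwsp
      intro k
      rw [hL, LinearMap.zero_apply]
      exact h1 k
    intro i
    have h4 := hL (Pi.single i 1)
    rw [hL0, LinearMap.zero_apply] at h4
    rw [Finset.sum_eq_single i (by
      intro j _ hji
      rw [Pi.single_eq_of_ne hji, mul_zero]) (by simp), Pi.single_eq_same, mul_one] at h4
    exact h4.symm
  have hle : Submodule.span ℂ (Set.range fun (i : Fin N) (k : K) => c k * w k i) ≤ evRel w m := by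
    rw [Submodule.span_le]
    rintro _ ⟨i, rfl⟩
    intro f hf
    have h1 := hc' (X i * f) (by
      have := (isHomogeneous_X ℂ i).mul hf
      rwa [add_comm 1 m] at this)
    rw [← h1]
    refine Finset.sum_congr rfl fun k _ => ?_
    rw [map_mul, eval_X]
    ring
  have heq2 : Submodule.span ℂ (Set.range fun (i : Fin N) (k : K) => c k * w k i) = evRel w m := by
    apply Submodule.eq_of_le_of_finrank_le hle
    rw [finrank_span_eq_card hli, Fintype.card_fin]
    exact g.rel_pred
  rw [← heq2, Submodule.mem_span_range_iff_exists_fun] at he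
  obtain ⟨q, hq⟩ := he
  have hq' : ∀ k, z k (Fin.last N) = ∑ i, q i * w k i := by
    intro k
    have h2 := congrFun hq k
    simp only [Finset.sum_apply, Pi.smul_apply, smul_eq_mul] at h2
    apply mul_left_cancel₀ (hfull k)
    rw [← h2, Finset.mul_sum]
    refine Finset.sum_congr rfl fun i _ => by ring
  -- the plane
  let η : Fin (N + 1) → ℂ := Fin.snoc (fun i => - (q i * P (Fin.last N)))
    (1 + ∑ i, q i * P i.castSucc)
  have hη : η = 0 := by
    apply hsp
    intro k
    rw [Fin.sum_univ_castSucc]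
    simp only [η, Fin.snoc_castSucc, Fin.snoc_last]
    have h3 := hq' k
    simp only [hw, projv] at h3
    have h4 : ∑ i, q i * (P (Fin.last N) * z k i.castSucc - z k (Fin.last N) * P i.castSucc) =
        ∑ i, q i * P (Fin.last N) * z k i.castSucc -
          (∑ i, q i * P i.castSucc) * z k (Fin.last N) := by
      rw [Finset.sum_mul, ← Finset.sum_sub_distrib]
      refine Finset.sum_congr rfl fun i _ => by ring
    rw [h4] at h3
    have h5 : ∑ i, -(q i * P (Fin.last N)) * z k i.castSucc =
        - ∑ i, q i * P (Fin.last N) * z k i.castSucc := by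
      rw [← Finset.sum_neg_distrib]
      refine Finset.sum_congr rfl fun i _ => by ring
    rw [h5]
    linear_combination h3
  have h6 : ∑ i, η i * P i = P (Fin.last N) := by
    rw [Fin.sum_univ_castSucc]
    simp only [η, Fin.snoc_castSucc, Fin.snoc_last]
    rw [add_mul, one_mul, Finset.sum_mul, ← add_assoc, add_right_comm, ← Finset.sum_add_distrib]
    rw [Finset.sum_eq_zero (by intro i _; ring), zero_add]
  rw [hη] at h6
  apply hP
  rw [← h6]
  simp

end Pool.Agent.Q83.Cone
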