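import Pool.Agent.Y206.Q.Fin
import Pool.Agent.Helper947.Geo.C4
import Pool.Agent.Q83.Cone.Core

set_option autoImplicit false
open MvPolynomial
open Pool.Agent.Helper947.Geo
open Pool.Agent.Y206.G
open Pool.Agent.Y206.Q
open scoped LinearAlgebra.Projectivization

namespace Pool.Agent.Q83.Cone

/-- independent vectors stay independent after a general projection -/
theorem gen_triple (x y v : Fin 4 → ℂ) (h : LinearIndependent ℂ ![x, y, v]) :
    ∃ φ : MvPolynomial (Fin 4) ℂ, φ ≠ 0 ∧ ∀ P : Fin 4 → ℂ, eval P φ ≠ 0 →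
      LinearIndependent ℂ ![projv P x, projv P y, projv P v] := by
  have hne : Submodule.span ℂ (Set.range ![x, y, v]) ≠ ⊤ := by
    intro htop
    have h1 := finrank_span_eq_card h
    rw [htop, finrank_top, Module.finrank_fin_fun, Fintype.card_fin] at h1
    omega
  obtain ⟨e, he0, he⟩ := exists_annihilator _ hne
  have hex : e ⬝ᵥ x = 0 := he 0
  have hey : e ⬝ᵥ y = 0 := he 1
  have hev : e ⬝ᵥ v = 0 := he 2
  refine ⟨X (Fin.last 3) * lf e, mul_ne_zero (X_ne_zero _) (pi_lf_ne he0), ?_⟩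
  intro P hP
  rw [map_mul, eval_X, eval_lf] at hP
  have hPl : P (Fin.last 3) ≠ 0 := left_ne_zero_of_mul hP
  have hPe : e ⬝ᵥ P ≠ 0 := right_ne_zero_of_mul hP
  rw [Fintype.linearIndependent_iff] at h ⊢
  intro g hg
  have hg' : g 0 • projv P x + g 1 • projv P y + g 2 • projv P v = 0 := by
    simpa [Fin.sum_univ_three] using hg
  have h1 : projv P (g 0 • x + g 1 • y + g 2 • v) = 0 := by
    have h2 := (pi_L P).map_add (g 0 • x + g 1 • y) (g 2 • v)
    have h3 := (pi_L P).map_add (g 0 • x) (g 1 • y)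
    rw [map_smul, map_smul] at h3
    rw [h3, map_smul] at h2
    exact h2.trans hg'
  obtain ⟨c, hc⟩ := projv_ker P _ hPl h1
  have hc0 : c = 0 := by
    have h3 := congrArg (fun u => e ⬝ᵥ u) hc
    simp only [dotProduct_add, dotProduct_smul, hex, hey, hev, smul_eq_mul, mul_zero,
      add_zero] at h3
    rcases mul_eq_zero.1 h3.symm with h | h
    · exact h
    · exact absurd h hPe
  rw [hc0, zero_smul] at hc
  exact h g (by simpa [Fin.sum_univ_three] using hc)

theorem dep_mem {x y v : Fin 4 → ℂ} (hxy : LinearIndependent ℂ ![x, y])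
    (h : ¬ LinearIndependent ℂ ![x, y, v]) : v ∈ Submodule.span ℂ {x, y} := by
  by_contra hn
  exact h (c4_triple x y v hxy hn)

theorem span_pair_rank {x y : Fin 4 → ℂ} (hxy : LinearIndependent ℂ ![x, y]) :
    Module.finrank ℂ (Submodule.span ℂ {x, y}) = 2 := by
  have h := finrank_span_eq_card hxy
  rw [Fintype.card_fin] at h
  have h2 : Set.range ![x, y] = {x, y} := by
    simp [Matrix.range_cons, Matrix.range_empty, Set.pair_comm y x]
  rwa [h2] at h

/-- the residual of a trisecant line in a geproci set of type `(2, b)` -/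
theorem residual {K : Type} [Fintype K] (z : K → Fin 4 → ℂ)
    (h2 : ∀ i j, i ≠ j → LinearIndependent ℂ ![z i, z j]) (hz : ∀ k, z k ≠ 0)
    (b : ℕ) (hG : Gep z 2 b) (hb : 3 ≤ b) (i j k : K) (hij : i ≠ j) (hik : i ≠ k) (hjk : j ≠ k)
    (hdep : z k ∈ Submodule.span ℂ {z i, z j}) :
    Nat.card {l // z l ∈ Submodule.span ℂ {z i, z j}} = b ∧
    Fintype.card K = 2 * b ∧
    ∀ k₁ k₂ k₃, z k₁ ∉ Submodule.span ℂ {z i, z j} → z k₂ ∉ Submodule.span ℂ {z i, z j} →
      z k₃ ∉ Submodule.span ℂ {z i, z j} → ¬ LinearIndependent ℂ ![z k₁, z k₂, z k₃] := by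
  classical
  set L := Submodule.span ℂ {z i, z j} with hL
  have hiL : z i ∈ L := Submodule.subset_span (by simp)
  have hjL : z j ∈ L := Submodule.subset_span (by simp)
  obtain ⟨φ₀, hφ₀, hP⟩ := hG
  obtain ⟨φ₁, hφ₁, hind⟩ := projv_pair z h2 hz
  have hout : ∀ l : {l // z l ∉ L}, LinearIndependent ℂ ![z i, z j, z l.1] := fun l =>
    c4_triple _ _ _ (h2 i j hij) l.2
  choose φ₂ hφ₂ hφ₂' using fun l : {l // z l ∉ L} => gen_triple _ _ _ (hout l)
  -- for a general point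
  have key : ∀ P, eval P φ₀ ≠ 0 → eval P φ₁ ≠ 0 → (∀ l, eval P (φ₂ l) ≠ 0) →
      Nat.card {l // z l ∈ L} = b ∧ Fintype.card K = 2 * b ∧
      ((∃ l, z l ∉ L) → ∃ F : MvPolynomial (Fin 3) ℂ, F ≠ 0 ∧ F.IsHomogeneous 1 ∧
        ∀ l, z l ∉ L → eval (projv P (z l)) F = 0) := by
    intro P hP0 hP1 hP2
    obtain ⟨hPl, hpair, hnz⟩ := hind P hP1
    obtain ⟨F, G, hF, hG, hI⟩ := hP P hP0
    have hcard := h_card K (fun k => projv P (z k)) 2 b F G hpair hnz hF hG hI
    -- the line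
    have hw : LinearIndependent ℂ ![projv P (z i), projv P (z j)] := hpair i j hij
    obtain ⟨η, hη0, hη⟩ : ∃ η : Fin 3 → ℂ, η ≠ 0 ∧ η ⬝ᵥ projv P (z i) = 0 ∧
        η ⬝ᵥ projv P (z j) = 0 := by
      have hk : LinearMap.ker (Matrix.mulVecLin (Matrix.of ![projv P (z i), projv P (z j)])) ≠ ⊥ := by
        apply LinearMap.ker_ne_bot_of_finrank_lt
        rw [Module.finrank_fin_fun, Module.finrank_fin_fun]
        omega
      obtain ⟨e, he, he0⟩ := Submodule.exists_mem_ne_zero_of_ne_bot hk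
      refine ⟨e, he0, ?_, ?_⟩
      · have := congrFun (LinearMap.mem_ker.mp he) 0
        rw [Matrix.mulVecLin_apply] at this
        rw [dotProduct_comm]
        exact this
      · have := congrFun (LinearMap.mem_ker.mp he) 1
        rw [Matrix.mulVecLin_apply] at this
        rw [dotProduct_comm]
        exact this
    have hiff : ∀ l, η ⬝ᵥ projv P (z l) = 0 ↔ z l ∈ L := by
      intro l
      constructor
      · intro h
        by_contra hn
        have h3 := hφ₂' ⟨l, hn⟩ P (hP2 ⟨l, hn⟩)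
        apply hη0
        have hsp : Submodule.span ℂ (Set.range ![projv P (z i), projv P (z j), projv P (z l)]) = ⊤ := by
          apply Submodule.eq_top_of_finrank_eq
          rw [finrank_span_eq_card h3, Fintype.card_fin, Module.finrank_fin_fun]
        apply span_dual _ hsp
        intro r
        fin_cases r
        · exact hη.1
        · exact hη.2
        · exact h
      · intro h
        rw [hL, Submodule.mem_span_pair] at h
        obtain ⟨a, c, hac⟩ := h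
        have h1 : projv P (z l) = a • projv P (z i) + c • projv P (z j) := by
          have h2 := (pi_L P).map_add (a • z i) (c • z j)
          rw [map_smul, map_smul, hac] at h2
          exact h2
        rw [h1, dotProduct_add, dotProduct_smul, dotProduct_smul, hη.1, hη.2]
        simp
    have hcc : Nat.card {l // η ⬝ᵥ projv P (z l) = 0} = Nat.card {l // z l ∈ L} :=
      Nat.card_congr (Equiv.subtypeEquivRight hiff)
    have h3 : 3 ≤ Nat.card {l // z l ∈ L} := by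
      have h4 : ({i, j, k} : Finset K).card = 3 := by
        rw [Finset.card_insert_of_notMem (by simp [hij, hik]),
          Finset.card_insert_of_notMem (by simp [hjk]), Finset.card_singleton]
      rw [Nat.card_eq_fintype_card, Fintype.card_subtype, ← h4]
      apply Finset.card_le_card
      intro l hl
      simp only [Finset.mem_insert, Finset.mem_singleton] at hl
      rw [Finset.mem_filter]
      refine ⟨Finset.mem_univ _, ?_⟩
      rcases hl with rfl | rfl | rfl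
      · exact hiL
      · exact hjL
      · exact hdep
    rcases h_full K (fun k => projv P (z k)) 2 b F G hpair hnz hF hG hI (by norm_num) (by omega)
      η hη0 (by rw [hcc]; omega) with ⟨h4, F', hF', hI'⟩ | ⟨h4, -⟩
    · refine ⟨by rw [← hcc]; exact h4, hcard, ?_⟩
      rintro ⟨l₀, hl₀⟩
      have : Nonempty {k // η ⬝ᵥ projv P (z k) ≠ 0} := ⟨⟨l₀, fun h => hl₀ ((hiff l₀).mp h)⟩⟩
      obtain ⟨-, -, hF0, -⟩ := gor_pair hF' hG hI' (fun k => hnz k.1)
      refine ⟨F', hF0, hF', ?_⟩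
      intro l hl
      have h5 := (hI' F').mp (Ideal.subset_span (by simp)) ⟨l, fun h => hl ((hiff l).mp h)⟩ 1
      simpa using h5
    · exfalso
      rw [hcc] at h4
      omega
  obtain ⟨P, hPφ⟩ := g4_exists_ne (φ₀ * φ₁ * ∏ l, φ₂ l)
    (mul_ne_zero (mul_ne_zero hφ₀ hφ₁) (Finset.prod_ne_zero_iff.mpr fun l _ => hφ₂ l))
  rw [map_mul, map_mul, map_prod] at hPφ
  have hk := key P (left_ne_zero_of_mul (left_ne_zero_of_mul hPφ))
    (right_ne_zero_of_mul (left_ne_zero_of_mul hPφ))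
    (fun l => Finset.prod_ne_zero_iff.mp (right_ne_zero_of_mul hPφ) l (Finset.mem_univ l))
  refine ⟨hk.1, hk.2.1, ?_⟩
  intro k₁ k₂ k₃ h1 h3 h4 hli
  obtain ⟨φ₃, hφ₃, hφ₃'⟩ := gen_triple _ _ _ hli
  obtain ⟨P, hPφ⟩ := g4_exists_ne (φ₀ * φ₁ * (∏ l, φ₂ l) * φ₃)
    (mul_ne_zero (mul_ne_zero (mul_ne_zero hφ₀ hφ₁)
      (Finset.prod_ne_zero_iff.mpr fun l _ => hφ₂ l)) hφ₃)
  rw [map_mul, map_mul, map_mul, map_prod] at hPφ
  have hP3 := right_ne_zero_of_mul hPφ
  have hPφ := left_ne_zero_of_mul hPφ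
  obtain ⟨-, -, hF⟩ := key P (left_ne_zero_of_mul (left_ne_zero_of_mul hPφ))
    (right_ne_zero_of_mul (left_ne_zero_of_mul hPφ))
    (fun l => Finset.prod_ne_zero_iff.mp (right_ne_zero_of_mul hPφ) l (Finset.mem_univ l))
  obtain ⟨F, hF0, hF1, hF2⟩ := hF ⟨k₁, h1⟩
  have hli' := hφ₃' P hP3
  have hsp : Submodule.span ℂ (Set.range ![projv P (z k₁), projv P (z k₂), projv P (z k₃)]) = ⊤ := by
    apply Submodule.eq_top_of_finrank_eq
    rw [finrank_span_eq_card hli', Fintype.card_fin, Module.finrank_fin_fun]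
  obtain ⟨T, hT⟩ := zz_eval_lin F hF1
  have hT0 : T = 0 := by
    apply LinearMap.ext_on_range hsp
    intro r
    rw [hT, LinearMap.zero_apply]
    fin_cases r
    · exact hF2 k₁ h1
    · exact hF2 k₂ h3
    · exact hF2 k₃ h4
  apply hF0
  apply MvPolynomial.funext
  intro x
  rw [← hT, hT0, LinearMap.zero_apply, map_zero]

/-- **a nondegenerate geproci set of type `(2, b)` is a grid** -/
theorem two_grid (Z : Finset (ℙ ℂ (Fin 4 → ℂ))) (b : ℕ) (hb : 2 ≤ b)
    (hsp : Submodule.span ℂ (Set.range (fun z : Z => (z : ℙ ℂ (Fin 4 → ℂ)).rep)) = ⊤)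
    (hG : Gep (fun z : Z => (z : ℙ ℂ (Fin 4 → ℂ)).rep) 2 b) : Grid Z := by
  classical
  have h2 : ∀ k l : Z, k ≠ l → LinearIndependent ℂ
      ![(k : ℙ ℂ (Fin 4 → ℂ)).rep, (l : ℙ ℂ (Fin 4 → ℂ)).rep] := by
    intro k l hkl
    exact c4_pair _ _ (fun h => hkl (Subtype.ext h))
  have hz : ∀ k : Z, (k : ℙ ℂ (Fin 4 → ℂ)).rep ≠ 0 := fun k => k.1.rep_nonzero
  have hpos := card_pos_of_span _ hsp
  have hne : Nonempty Z := Fintype.card_pos_iff.mp (by omega)
  obtain ⟨k₀⟩ := hne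
  rcases Nat.lt_or_ge b 3 with hb3 | hb3
  · have hb2 : b = 2 := by omega
    subst hb2
    refine four_case Z ?_ hsp
    obtain ⟨φ₀, hφ₀, hP⟩ := hG
    obtain ⟨φ₁, hφ₁, hind⟩ := projv_pair _ h2 hz
    obtain ⟨P, hPφ⟩ := g4_exists_ne (φ₀ * φ₁) (mul_ne_zero hφ₀ hφ₁)
    rw [map_mul] at hPφ
    obtain ⟨hPl, hpair, hnz⟩ := hind P (right_ne_zero_of_mul hPφ)
    obtain ⟨F, G, hF, hG, hI⟩ := hP P (left_ne_zero_of_mul hPφ)
    have hcard := h_card Z _ 2 2 F G hpair hnz hF hG hI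
    simpa using hcard
  obtain ⟨ξ, W, -, -, -, -, i, -, j, -, k, -, hij, hik, hjk, hdep⟩ :=
    gep_special (fun z : Z => (z : ℙ ℂ (Fin 4 → ℂ)).rep) hsp h2 hz 2 b hG (by omega) k₀
  have hmem := dep_mem (h2 i j hij) hdep
  obtain ⟨hb', hcard, hres⟩ := residual (fun z : Z => (z : ℙ ℂ (Fin 4 → ℂ)).rep) h2 hz b hG hb3
    i j k hij hik hjk hmem
  set L := Submodule.span ℂ {(i : ℙ ℂ (Fin 4 → ℂ)).rep, (j : ℙ ℂ (Fin 4 → ℂ)).rep} with hL
  -- the residual
  have hcomp : Nat.card {l : Z // (l : ℙ ℂ (Fin 4 → ℂ)).rep ∉ L} = b := by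
    have h3 := Fintype.card_subtype_compl (fun l : Z => (l : ℙ ℂ (Fin 4 → ℂ)).rep ∈ L)
    rw [Nat.card_eq_fintype_card] at hb' ⊢
    rw [h3, hcard, hb']
    omega
  have hgt : 1 < Nat.card {l : Z // (l : ℙ ℂ (Fin 4 → ℂ)).rep ∉ L} := by omega
  rw [Nat.card_eq_fintype_card, Fintype.one_lt_card_iff] at hgt
  obtain ⟨r₁, r₂, hr⟩ := hgt
  have hr' : r₁.1 ≠ r₂.1 := fun h => hr (Subtype.ext h)
  set M := Submodule.span ℂ {(r₁.1 : ℙ ℂ (Fin 4 → ℂ)).rep, (r₂.1 : ℙ ℂ (Fin 4 → ℂ)).rep} with hM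
  have hcov : ∀ l : Z, (l : ℙ ℂ (Fin 4 → ℂ)).rep ∉ L → (l : ℙ ℂ (Fin 4 → ℂ)).rep ∈ M := by
    intro l hl
    exact dep_mem (h2 _ _ hr') (hres r₁.1 r₂.1 l r₁.2 r₂.2 hl)
  have hLr := span_pair_rank (h2 i j hij)
  have hMr := span_pair_rank (h2 _ _ hr')
  have hinf : L ⊓ M = ⊥ := by
    have h5 := Submodule.finrank_sup_add_finrank_inf_eq L M
    have h6 : L ⊔ M = ⊤ := by
      rw [eq_top_iff, ← hsp, Submodule.span_le]
      rintro _ ⟨l, rfl⟩
      by_cases hl : (l : ℙ ℂ (Fin 4 → ℂ)).rep ∈ L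
      · exact Submodule.mem_sup_left hl
      · exact Submodule.mem_sup_right (hcov l hl)
    rw [h6, finrank_top, Module.finrank_fin_fun] at h5
    have h7 : Module.finrank ℂ L = 2 := hLr
    have h8 : Module.finrank ℂ M = 2 := hMr
    rw [h7, h8] at h5
    exact Submodule.finrank_eq_zero.mp (by omega)
  have hiff : ∀ l : Z, (l : ℙ ℂ (Fin 4 → ℂ)).rep ∉ L ↔ (l : ℙ ℂ (Fin 4 → ℂ)).rep ∈ M := by
    intro l
    refine ⟨hcov l, fun h9 h10 => ?_⟩
    have h11 : (l : ℙ ℂ (Fin 4 → ℂ)).rep ∈ L ⊓ M := ⟨h10, h9⟩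
    rw [hinf, Submodule.mem_bot] at h11
    exact hz l h11
  have hcnt : ∀ (V : Submodule ℂ (Fin 4 → ℂ)), Nat.card {z // z ∈ Z ∧ z.submodule ≤ V} =
      Nat.card {l : Z // (l : ℙ ℂ (Fin 4 → ℂ)).rep ∈ V} := by
    intro V
    exact (Nat.card_congr ((Equiv.subtypeEquivRight fun z : Z => (sub_le_iff z.1 V).symm).trans
      (Equiv.subtypeSubtypeEquivSubtypeInter (fun z => z ∈ Z) (fun z => z.submodule ≤ V)))).symm
  refine Pool.Agent.Y625.QG.two Z b ![L, M] ?_ ?_ ?_ ?_ ?_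
  · intro r
    fin_cases r
    · exact hLr
    · exact hMr
  · exact hinf
  · intro z hz
    by_cases hl : z.rep ∈ L
    · exact Or.inl ((sub_le_iff z L).mpr hl)
    · exact Or.inr ((sub_le_iff z M).mpr (hcov ⟨z, hz⟩ hl))
  · exact (hcnt L).trans hb'
  · refine (hcnt M).trans ?_
    rw [← hcomp]
    exact Nat.card_congr (Equiv.subtypeEquivRight fun l => (hiff l).symm)

end Pool.Agent.Q83.Cone
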